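import Pool.Agent.helper92.ISA.Spec
import Pool.Agent.helper50.ISO.COR

/-!
# Project ISA (MP_069684_lc): row COR: one input length (port of helper50/ISO/COR.lean)
-/

set_option autoImplicit false

namespace Pool.Agent.ISA

open Pool.Agent.PB Pool.Agent.ISO

theorem COR_proof (hCIR : ISO.CIR_stmt) (hTSZ : ISA.TSZ_stmt) (hSND : ISA.SND_stmt) (hCPL : ISA.CPL_stmt)
    (hGRD : ISO.GRD_stmt) : ISA.COR_stmt := by
  classical
  intro n w M R N m B Q A p f h K hM hDes hPr hQ
  obtain ⟨k, W, hk1, hkB, hWs, hWl, hWp⟩ := hPr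
  obtain ⟨-, hconst, hmono, -, -, -, hor⟩ := hCIR
  have hQ4 : 4 ≤ Q := by omega
  by_cases hU : (Finset.univ.filter fun x : Fin n → Bool => wit f x = 1).Nonempty
  · have hcard : (Finset.univ.filter fun x : Fin n → Bool => wit f x = 1).card ≤ 2 ^ n := by
      refine (Finset.card_le_univ _).trans ?_
      rw [Fintype.card_fun, Fintype.card_fin, Fintype.card_bool]
    obtain ⟨e, X, hX1, hX2⟩ := hGRD (Fin n → Bool) M n
      (fun e X x => test K A p W e X (fun e => COR_w f (X e)) x)
      (Finset.univ.filter fun x : Fin n → Bool => wit f x = 1) hM hU hcard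
      (by
        intro e X x y
        show test K A p W e (Function.update X e y) (fun e' => COR_w f (Function.update X e y e')) x =
          test K A p W e X (fun e' => COR_w f (X e')) x
        unfold test
        simp only [COR_tcnt])
      (fun X _ => hCPL n w M R N k m A p K W X (fun e => COR_w f (X e)) hk1 hM hDes)
    refine ⟨fun x => decide (∃ l, test K A p W (e l) (X l) (fun e' => COR_w f (X l e')) x = true), ?_, ?_, ?_⟩
    · have h1 := hor (Fin (M * n + 1)) n (30 * Q ^ 3)
        (fun l => test K A p W (e l) (X l) (fun e' => COR_w f (X l e')))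
        (fun x => decide (∃ l, test K A p W (e l) (X l) (fun e' => COR_w f (X l e')) x = true))
        (fun l => hTSZ n w M R N k B Q A p K W (e l) (X l) (fun e' => COR_w f (X l e')) hWs (by omega))
        (fun x => by simp)
      refine hmono _ _ _ _ h1 ?_
      rw [Fintype.card_fin]
      have h2 : M * n + 1 ≤ Q := by omega
      have h3 : (M * n + 1) * (30 * Q ^ 3 + 1) ≤ Q * (30 * Q ^ 3 + 1) := Nat.mul_le_mul_right _ h2
      have h4 : Q * (30 * Q ^ 3 + 1) + 1 ≤ Q ^ 10 := by
        have h5 : 4 ^ 6 ≤ Q ^ 6 := Nat.pow_le_pow_left hQ4 6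
        have h6 : 1 ≤ Q ^ 4 := Nat.one_le_pow _ _ (by omega)
        have h7 : Q ≤ Q ^ 4 := Nat.le_self_pow (by norm_num) Q
        calc Q * (30 * Q ^ 3 + 1) + 1 = 30 * Q ^ 4 + Q + 1 := by ring
          _ ≤ 30 * Q ^ 4 + Q ^ 4 + Q ^ 4 := by omega
          _ = 32 * Q ^ 4 := by ring
          _ ≤ Q ^ 6 * Q ^ 4 := Nat.mul_le_mul_right _ (le_trans (by norm_num) h5)
          _ = Q ^ 10 := by ring
      omega
    · intro x hx
      obtain ⟨l, hl⟩ := hX2 x (by simpa using hx)
      simpa using ⟨l, hl⟩
    · intro x hx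
      have h1 : ∀ l, test K A p W (e l) (X l) (fun e' => COR_w f (X l e')) x = false := by
        intro l
        refine hSND n w M R N k m A p f h K W (e l) (X l) (fun e' => COR_w f (X l e')) x hDes.1 hWl hWp ?_
          (COR_wit_zero f x hx)
        intro e' _ y
        have h2 := hX1 l e'
        rw [Finset.mem_filter] at h2
        exact COR_w_spec f (X l e') h2.2 y
      simp [h1]
  · refine ⟨fun _ => false, hmono _ _ _ _ (hconst n false) (Nat.one_le_pow _ _ (by omega)), ?_, fun _ _ => rfl⟩
    intro x hx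
    exact absurd ⟨x, by simpa using hx⟩ hU

end Pool.Agent.ISA
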