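import Pool.Agent.helper92.ISA.Spec
import Pool.Agent.helper44.ISO.TSZ

/-!
# Project ISA (MP_069684_lc): row TSZ (port of helper44/ISO/TSZ.lean)
-/

set_option autoImplicit false

open Filter Topology

namespace Pool.Agent.ISA

open Pool.Agent.PB Pool.Agent.ISO

theorem TSZ_proof (hCIR : ISO.CIR_stmt) (hCNT : ISO.CNT_stmt) (hSEL : ISO.SEL_stmt) : ISA.TSZ_stmt := by
  classical
  intro n w M R N k B Q A p K W e0 X u hW hQ
  have h1 : ∀ (i : Fin k) (j : Fin R), Size std (fun x : Fin n → Bool =>
      W i (Fin.append (enc N (Function.update X e0 x)) (encW j (zs K u j)))) (B + (N + (R + M * w))) := by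
    intro i j
    refine hSEL n (N + (R + M * w)) B (W i)
      (fun l x => (Fin.append (enc N (Function.update X e0 x)) (encW j (zs K u j))) l) (hW i) ?_
    intro l
    refine Fin.addCases (fun l' => ?_) (fun l' => ?_) l
    · simp only [Fin.append_left]
      exact TSZ_bit N e0 X l'
    · simp only [Fin.append_right]
      exact Or.inl ⟨_, rfl⟩
  have hR : Fintype.card ↥(K e0) ≤ R := by
    rw [Fintype.card_coe]
    refine (Finset.card_le_univ _).trans ?_
    rw [Fintype.card_fin]
  have h2 : ∀ i : Fin k, Size std (fun x : Fin n → Bool =>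
      decide (tcnt K (W i) e0 X u x ∈ A)) (R * (B + (N + (R + M * w))) + 10 * (R + 1) ^ 2) := by
    intro i
    refine hCIR.2.2.1 n _ _ _ (hCNT ↥(K e0) n (B + (N + (R + M * w)))
      (fun j x => W i (Fin.append (enc N (Function.update X e0 x)) (encW (j : Fin R) (zs K u j)))) _
      (fun c => c ∈ A) (fun j => h1 i j) ?_) ?_
    · intro x
      rw [decide_eq_true_eq]
      have h3 := TSZ_card (K e0) (fun j : Fin R => W i (Fin.append (enc N (Function.update X e0 x)) (encW j (zs K u j))) = true)
      unfold tcnt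
      rw [h3]
    · have h4 := Nat.mul_le_mul hR (le_refl (B + (N + (R + M * w))))
      have h5 := Nat.mul_le_mul (le_refl 10) (Nat.pow_le_pow_left (Nat.add_le_add_right hR 1) 2)
      exact Nat.add_le_add h4 h5
  have h3 : Size std (test K A p W e0 X u)
      (Fintype.card (Fin k) * (R * (B + (N + (R + M * w))) + 10 * (R + 1) ^ 2) + 10 * (Fintype.card (Fin k) + 1) ^ 2) := by
    refine hCNT (Fin k) n _ (fun i x => decide (tcnt K (W i) e0 X u x ∈ A)) _
      (fun c => (c : ℝ) < p * k) h2 ?_
    intro x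
    unfold test
    rw [decide_eq_true_eq]
    have h4 : (Finset.univ.filter fun i => tcnt K (W i) e0 X u x ∈ A) =
        Finset.univ.filter fun i => (fun (i : Fin k) (x : Fin n → Bool) => decide (tcnt K (W i) e0 X u x ∈ A)) i x = true := by
      ext i
      simp
    rw [← h4]
  refine hCIR.2.2.1 n _ _ _ h3 ?_
  rw [Fintype.card_fin]
  have hk : k ≤ Q := by omega
  have hk1 : k + 1 ≤ Q := by omega
  have hR1 : R + 1 ≤ Q := by omega
  have hRQ : R ≤ Q := by omega
  have hB : B + (N + (R + M * w)) ≤ Q := by omega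
  have hQ1 : 1 ≤ Q := by omega
  calc k * (R * (B + (N + (R + M * w))) + 10 * (R + 1) ^ 2) + 10 * (k + 1) ^ 2
      ≤ Q * (Q * Q + 10 * Q ^ 2) + 10 * Q ^ 2 := by gcongr
    _ ≤ 30 * Q ^ 3 := by nlinarith [Nat.pow_le_pow_right hQ1 (show 2 ≤ 3 by norm_num), pow_pos (show 0 < Q by omega) 3]

end Pool.Agent.ISA
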